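import Pool.Agent.helper95.PY2.Spec

/-!
# Row CASEB of the project py2 (MP_f6e9a2_nt)

Cells with few points of `B`: the theorem `main3` of helper46, applied to pieces of `B`.
-/

set_option autoImplicit false

open Finset Pointwise

namespace Pool.Agent.PY2

open Pool.Agent.helper46.PY (ap mixed mem_ap)

/-- number of cells met by an interval of naturals -/
theorem CASEB_cells (L s t : ℕ) (R : ℝ) (hL : 1 ≤ L) (hR : 0 ≤ R) (h : (t : ℝ) ≤ s + R) :
    ((Icc (s / L) (t / L)).card : ℝ) ≤ R / L + 2 := by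
  have hL0 : (0 : ℝ) < L := by exact_mod_cast hL
  rw [Nat.card_Icc]
  by_cases h0 : t / L + 1 ≤ s / L
  · have h1 : t / L + 1 - s / L = 0 := by omega
    rw [h1]
    push_cast
    positivity
  · have h2 : ((t / L + 1 - s / L : ℕ) : ℝ) = ((t / L : ℕ) : ℝ) + 1 - ((s / L : ℕ) : ℝ) := by
      rw [Nat.cast_sub (by omega)]
      push_cast
      ring
    rw [h2]
    have h3 : ((t / L : ℕ) : ℝ) ≤ (t : ℝ) / L := Nat.cast_div_le
    have h4 : (s : ℝ) / L ≤ ((s / L : ℕ) : ℝ) + 1 := by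
      rw [div_le_iff₀ hL0]
      have h5 : s ≤ (s / L + 1) * L := by
        have h6 := Nat.div_add_mod s L
        have h7 := Nat.mod_lt s hL
        nlinarith
      exact_mod_cast h5
    have h6 : (t : ℝ) / L ≤ (s : ℝ) / L + R / L := by
      rw [← add_div]
      exact div_le_div_of_nonneg_right h hL0.le
    linarith

/-- number of points of `B` near a point -/
theorem CASEB_near (p : ℕ) [Fact p.Prime] (N L : ℕ) (B : Finset (ZMod p)) (e f : ℝ) (hL : 1 ≤ L)
    (h3N : 3 * N < p) (hf : (N : ℝ) ≤ f * L) (hf1 : 1 ≤ f) (he : ∀ j, ((cl B L j).card : ℝ) ≤ e) (x : ZMod p) :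
    (((B.filter fun b => x - b ∈ ap (1 : ZMod p) (3 * N)).card : ℕ) : ℝ) ≤ 24 * (e * f) := by
  classical
  have hL0 : (0 : ℝ) < L := by exact_mod_cast hL
  have he0 : 0 ≤ e := (Nat.cast_nonneg _).trans (he 0)
  have hp : p.Prime := Fact.out
  obtain ⟨S, hS⟩ : ∃ S, S = B.filter fun b => x - b ∈ ap (1 : ZMod p) (3 * N) := ⟨_, rfl⟩
  rw [← hS]
  have hsub : S.image (fun b => b.val / L) ⊆
      (Icc ((x.val - 3 * N) / L) ((x.val + 3 * N) / L) ∪
        Icc ((x.val + p - 3 * N) / L) ((x.val + p + 3 * N) / L)) ∪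
        Icc ((x.val - (3 * N + p)) / L) ((x.val + 3 * N - p) / L) := by
    intro j hj
    rw [mem_image] at hj
    obtain ⟨b, hb, rfl⟩ := hj
    rw [hS, mem_filter, mem_ap] at hb
    obtain ⟨_, n, hn, hn2⟩ := hb
    rw [mul_one] at hn2
    have hxv : ((x.val : ℕ) : ZMod p) = x := ZMod.natCast_zmod_val x
    have hbv : ((b.val : ℕ) : ZMod p) = b := ZMod.natCast_zmod_val b
    have h1 : (((x.val : ℤ) - (b.val : ℤ) - n : ℤ) : ZMod p) = 0 := by
      push_cast
      rw [hxv, hbv, hn2]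
      ring
    rw [ZMod.intCast_zmod_eq_zero_iff_dvd] at h1
    obtain ⟨k, hk⟩ := h1
    have hxp : x.val < p := ZMod.val_lt x
    have hbp : b.val < p := ZMod.val_lt b
    have hp0 : (0 : ℤ) < p := by exact_mod_cast hp.pos
    have hn' := abs_le.1 hn
    push_cast at hn'
    obtain ⟨hn1, hn3⟩ := hn'
    have h3N' : 3 * (N : ℤ) < p := by exact_mod_cast h3N
    have hxp' : (x.val : ℤ) < p := by exact_mod_cast hxp
    have hbp' : (b.val : ℤ) < p := by exact_mod_cast hbp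
    have hx0' : (0 : ℤ) ≤ x.val := by positivity
    have hb0' : (0 : ℤ) ≤ b.val := by positivity
    have hk1 : k < 2 := by
      by_contra hcon
      push Not at hcon
      nlinarith
    have hk2 : -2 < k := by
      by_contra hcon
      push Not at hcon
      nlinarith
    have hk3 : k = 0 ∨ k = 1 ∨ k = -1 := by omega
    rw [mem_union, mem_union, mem_Icc, mem_Icc, mem_Icc]
    rcases hk3 with rfl | rfl | rfl
    · left
      left
      constructor
      · exact Nat.div_le_div_right (by omega)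
      · exact Nat.div_le_div_right (by omega)
    · right
      constructor
      · exact Nat.div_le_div_right (by omega)
      · exact Nat.div_le_div_right (by omega)
    · left
      right
      constructor
      · exact Nat.div_le_div_right (by omega)
      · exact Nat.div_le_div_right (by omega)
  have hcard : ((S.image (fun b => b.val / L)).card : ℝ) ≤ 24 * f := by
    have h1 : (S.image (fun b => b.val / L)).card ≤
        ((Icc ((x.val - 3 * N) / L) ((x.val + 3 * N) / L)).card +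
        (Icc ((x.val + p - 3 * N) / L) ((x.val + p + 3 * N) / L)).card) +
        (Icc ((x.val - (3 * N + p)) / L) ((x.val + 3 * N - p) / L)).card := by
      refine (card_le_card hsub).trans ((card_union_le _ _).trans ?_)
      exact Nat.add_le_add_right (card_union_le _ _) _
    have hR : (0 : ℝ) ≤ 6 * N := by positivity
    have c1 : (((x.val + 3 * N : ℕ) : ℝ)) ≤ ((x.val - 3 * N : ℕ) : ℝ) + 6 * N := by
      have : x.val + 3 * N ≤ (x.val - 3 * N) + 6 * N := by omega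
      exact_mod_cast this
    have c2 : (((x.val + p + 3 * N : ℕ) : ℝ)) ≤ ((x.val + p - 3 * N : ℕ) : ℝ) + 6 * N := by
      have : x.val + p + 3 * N ≤ (x.val + p - 3 * N) + 6 * N := by omega
      exact_mod_cast this
    have c3 : (((x.val + 3 * N - p : ℕ) : ℝ)) ≤ ((x.val - (3 * N + p) : ℕ) : ℝ) + 6 * N := by
      have : x.val + 3 * N - p ≤ (x.val - (3 * N + p)) + 6 * N := by omega
      exact_mod_cast this
    have d1 := CASEB_cells L _ _ _ hL hR c1
    have d2 := CASEB_cells L _ _ _ hL hR c2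
    have d3 := CASEB_cells L _ _ _ hL hR c3
    have h2 : ((S.image (fun b => b.val / L)).card : ℝ) ≤
        (((Icc ((x.val - 3 * N) / L) ((x.val + 3 * N) / L)).card : ℝ) +
        ((Icc ((x.val + p - 3 * N) / L) ((x.val + p + 3 * N) / L)).card : ℝ)) +
        ((Icc ((x.val - (3 * N + p)) / L) ((x.val + 3 * N - p) / L)).card : ℝ) := by
      exact_mod_cast h1
    have h3 : (6 * (N : ℝ)) / L ≤ 6 * f := by
      rw [div_le_iff₀ hL0]
      linarith
    linarith
  have h4 : S.card ≤ ⌊e⌋₊ * (S.image (fun b => b.val / L)).card := by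
    refine card_le_mul_card_image S _ fun j _ => ?_
    rw [Nat.le_floor_iff he0]
    refine le_trans ?_ (he j)
    refine Nat.cast_le.2 (card_le_card ?_)
    intro b hb
    rw [mem_filter, hS, mem_filter] at hb
    unfold cl
    rw [mem_filter]
    exact ⟨hb.1.1, hb.2⟩
  calc (S.card : ℝ) ≤ ((⌊e⌋₊ * (S.image (fun b => b.val / L)).card : ℕ) : ℝ) := Nat.cast_le.2 h4
    _ = (⌊e⌋₊ : ℝ) * ((S.image (fun b => b.val / L)).card : ℝ) := Nat.cast_mul _ _
    _ ≤ e * (24 * f) := mul_le_mul (Nat.floor_le he0) hcard (Nat.cast_nonneg _) he0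
    _ = 24 * (e * f) := by ring

/-- the interval `{-N, ..., 2N}` -/
noncomputable def CASEB_P (p N : ℕ) : Finset (ZMod p) :=
  (Icc (-(N : ℤ)) (2 * N)).image fun n : ℤ => (n : ZMod p)

/-- the interval `{0, ..., N-1}` -/
noncomputable def CASEB_A (p N : ℕ) : Finset (ZMod p) := (range N).image fun n : ℕ => (n : ZMod p)

theorem CASEB_mem_P (p N : ℕ) (x : ZMod p) :
    x ∈ CASEB_P p N ↔ ∃ n : ℤ, -(N : ℤ) ≤ n ∧ n ≤ 2 * N ∧ (n : ZMod p) = x := by
  unfold CASEB_P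
  rw [mem_image]
  constructor
  · rintro ⟨n, hn, rfl⟩
    rw [mem_Icc] at hn
    exact ⟨n, hn.1, hn.2, rfl⟩
  · rintro ⟨n, h1, h2, rfl⟩
    exact ⟨n, mem_Icc.2 ⟨h1, h2⟩, rfl⟩

theorem CASEB_card_P (p N : ℕ) (h : 3 * N < p) : (CASEB_P p N).card = 3 * N + 1 := by
  unfold CASEB_P
  rw [card_image_of_injOn]
  · rw [Int.card_Icc]
    omega
  · intro m hm n hn hmn
    rw [mem_coe, mem_Icc] at hm hn
    simp only at hmn
    have h1 : (((m - n : ℤ)) : ZMod p) = 0 := by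
      push_cast
      rw [hmn, sub_self]
    rw [ZMod.intCast_zmod_eq_zero_iff_dvd] at h1
    have h2 : |m - n| < (p : ℤ) := by
      rw [abs_lt]
      constructor
      · omega
      · omega
    have h3 := Int.eq_zero_of_abs_lt_dvd h1 h2
    omega

theorem CASEB_inj (p N : ℕ) (h : N ≤ p) :
    Set.InjOn (fun n : ℕ => (n : ZMod p)) (range N : Set ℕ) := by
  intro m hm n hn hmn
  rw [mem_coe, mem_range] at hm hn
  simp only at hmn
  rw [ZMod.natCast_eq_natCast_iff'] at hmn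
  rwa [Nat.mod_eq_of_lt (by omega), Nat.mod_eq_of_lt (by omega)] at hmn

theorem CASEB_card_A (p N : ℕ) (h : N ≤ p) : (CASEB_A p N).card = N := by
  unfold CASEB_A
  rw [card_image_of_injOn (CASEB_inj p N h), card_range]

theorem CASEB_sum_A (p N : ℕ) (h : N ≤ p) (g : ZMod p → ℝ) :
    ∑ a ∈ CASEB_A p N, g a = ∑ n ∈ range N, g (n : ZMod p) := by
  unfold CASEB_A
  rw [sum_image (CASEB_inj p N h)]

theorem CASEB_sub (p N : ℕ) : CASEB_A p N + ap (1 : ZMod p) N ⊆ CASEB_P p N := by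
  intro x hx
  rw [mem_add] at hx
  obtain ⟨a, ha, b, hb, rfl⟩ := hx
  unfold CASEB_A at ha
  rw [mem_image] at ha
  obtain ⟨n, hn, rfl⟩ := ha
  rw [mem_range] at hn
  rw [mem_ap] at hb
  obtain ⟨k, hk, rfl⟩ := hb
  rw [CASEB_mem_P]
  have hk' := abs_le.1 hk
  refine ⟨(n : ℤ) + k, by omega, by omega, ?_⟩
  push_cast
  ring

theorem CASEB_mixed (p N : ℕ) [Fact p.Prime] (B : Finset (ZMod p)) (m : ℝ)
    (hm : ∀ x : ZMod p, (((B.filter fun b => x - b ∈ ap (1 : ZMod p) (3 * N)).card : ℕ) : ℝ) ≤ m) :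
    (mixed (CASEB_P p N) B : ℝ) ≤ m * (CASEB_P p N).card * (B.card : ℝ) ^ 2 := by
  classical
  obtain ⟨P, hP⟩ : ∃ P, P = CASEB_P p N := ⟨_, rfl⟩
  rw [← hP]
  have h1 : mixed P B ≤ (((P ×ˢ (B ×ˢ B)) ×ˢ B).filter fun w =>
      w.1.2.1 - w.2 ∈ ap (1 : ZMod p) (3 * N)).card := by
    unfold mixed
    refine card_le_card_of_injOn
      (fun w => ((w.1.1, (w.2.1.1, w.2.2.1)), w.2.1.2)) ?_ ?_
    · intro w hw
      rw [mem_coe, mem_filter, mem_product, mem_product, mem_product, mem_product, mem_product] at hw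
      obtain ⟨⟨⟨a1, a2⟩, ⟨a3, a4⟩, a5, a6⟩, e1, e2⟩ := hw
      simp only [mem_coe, mem_filter, mem_product]
      refine ⟨⟨⟨a1, a3, a5⟩, a4⟩, ?_⟩
      rw [← e1]
      rw [hP, CASEB_mem_P] at a1 a2
      obtain ⟨x, x1, x2, x3⟩ := a1
      obtain ⟨y, y1, y2, y3⟩ := a2
      rw [mem_ap]
      refine ⟨x - y, ?_, ?_⟩
      · rw [abs_le]
        push_cast
        constructor <;> linarith
      · rw [← x3, ← y3]
        push_cast
        ring
    · intro w hw w' hw' h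
      rw [mem_coe, mem_filter] at hw hw'
      obtain ⟨_, e1, e2⟩ := hw
      obtain ⟨_, f1, f2⟩ := hw'
      simp only [Prod.mk.injEq] at h
      obtain ⟨⟨h1, h2, h3⟩, h4⟩ := h
      have h5 : w.1.2 = w'.1.2 := by
        have : w.1.1 - w.1.2 = w'.1.1 - w'.1.2 := by rw [e1, f1, h2, h4]
        rw [h1] at this
        exact sub_right_injective this
      have h6 : w.2.2.2 = w'.2.2.2 := by
        have : w.2.2.1 - w.2.2.2 = w'.2.2.1 - w'.2.2.2 := by
          rw [← e2, ← f2, h1, h5]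
        rw [h3] at this
        exact sub_right_injective this
      exact Prod.ext (Prod.ext h1 h5) (Prod.ext (Prod.ext h2 h4) (Prod.ext h3 h6))
  have h2 : ((((P ×ˢ (B ×ˢ B)) ×ˢ B).filter fun w =>
      w.1.2.1 - w.2 ∈ ap (1 : ZMod p) (3 * N)).card : ℝ) =
      ∑ z ∈ P ×ˢ (B ×ˢ B), (((B.filter fun b => z.2.1 - b ∈ ap (1 : ZMod p) (3 * N)).card : ℕ) : ℝ) := by
    rw [card_filter, sum_product]
    push_cast
    refine sum_congr rfl fun z _ => ?_
    rw [card_filter]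
    push_cast
    rfl
  calc (mixed P B : ℝ) ≤ ((((P ×ˢ (B ×ˢ B)) ×ˢ B).filter fun w =>
      w.1.2.1 - w.2 ∈ ap (1 : ZMod p) (3 * N)).card : ℝ) := by exact_mod_cast h1
    _ = _ := h2
    _ ≤ ∑ z ∈ P ×ˢ (B ×ˢ B), m := sum_le_sum fun z _ => hm _
    _ = m * P.card * (B.card : ℝ) ^ 2 := by
        rw [sum_const, card_product, card_product, nsmul_eq_mul]
        push_cast
        ring

/-- splitting into pieces -/
theorem CASEB_split {p : ℕ} [Fact p.Prime] (F : Finset (ZMod p) → ℝ) (c : ℝ) (X : ℕ) (hX : 1 ≤ X)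
    (B₀ : Finset (ZMod p))
    (hadd : ∀ B C : Finset (ZMod p), C ⊆ B → F B ≤ F C + F (B \ C))
    (hF : ∀ B : Finset (ZMod p), B ⊆ B₀ → X ≤ B.card → B.card ≤ 2 * X → F B ≤ c * B.card) :
    ∀ n : ℕ, ∀ B : Finset (ZMod p), B ⊆ B₀ → B.card = n → X ≤ B.card → F B ≤ c * B.card := by
  classical
  intro n
  induction n using Nat.strong_induction_on with
  | _ n ih =>
    intro B hB hn hXB
    by_cases h : B.card ≤ 2 * X
    · exact hF B hB hXB h
    · push Not at h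
      obtain ⟨C, hC, hCc⟩ := exists_subset_card_eq hXB
      have h1 : (B \ C).card = B.card - X := by
        rw [card_sdiff_of_subset hC, hCc]
      have h2 := hF C (hC.trans hB) (by omega) (by omega)
      have h3 := ih (B \ C).card (by omega) (B \ C) (sdiff_subset.trans hB) rfl (by omega)
      have h4 : (B.card : ℝ) = C.card + (B \ C).card := by
        have : B.card = C.card + (B \ C).card := by omega
        exact_mod_cast this
      calc F B ≤ F C + F (B \ C) := hadd B C hC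
        _ ≤ c * C.card + c * (B \ C).card := add_le_add h2 h3
        _ = c * B.card := by rw [h4]; ring

/-- the core: everything numeric as hypotheses -/
theorem CASEB_core (ε δ : ℝ) (hε : 0 < ε) (p : ℕ) [Fact p.Prime]
    (hmain : ∀ (A P B : Finset (ZMod p)) (v : ZMod p) (T : ℕ) (m : ℝ), v ≠ 0 →
        (p : ℝ) ^ (ε / 16) ≤ T → T ^ 2 ≤ p → A + ap v T ⊆ P →
        (P.card : ℝ) ≤ (p : ℝ) ^ δ * A.card →
        (mixed P B : ℝ) ≤ m * P.card * (B.card : ℝ) ^ 2 →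
        (P.card : ℝ) ≤ Real.sqrt p * m →
        (B.card : ℝ) * min (P.card : ℝ) (B.card : ℝ) ≤ Real.sqrt p * m →
        (p : ℝ) ^ (1 + ε / 16) * m ≤ T * P.card * (B.card : ℝ) ^ 2 →
        ∀ χ : MulChar (ZMod p) ℂ, χ ≠ 1 → ∀ β : ZMod p → ℂ, (∀ b, ‖β b‖ ≤ 1) →
          ∑ a ∈ A, ‖∑ b ∈ B, β b * χ (a + b)‖ ≤ (p : ℝ) ^ (-δ) * A.card * B.card)
    (h8 : 8 ≤ (p : ℝ) ^ (ε / 4)) (h4 : 4 ≤ (p : ℝ) ^ δ)
    (N L : ℕ) (B : Finset (ZMod p)) (hN : (p : ℝ) ^ ε ≤ N) (hN2 : N ^ 2 ≤ p)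
    (hNB : (p : ℝ) ^ (1 / 2 + ε) ≤ N * B.card)
    (hL1 : N * (p : ℝ) ^ (-(ε / 4)) ≤ L)
    (hcl : ∀ j, ((cl B L j).card : ℝ) ≤ (p : ℝ) ^ (ε / 16))
    (χ : MulChar (ZMod p) ℂ) (hχ : χ ≠ 1) (β : ZMod p → ℂ) (hβ : ∀ b, ‖β b‖ ≤ 1) :
    ∑ n ∈ range N, ‖∑ b ∈ B, β b * χ ((n : ZMod p) + b)‖ ≤ (p : ℝ) ^ (-δ) * N * B.card := by
  classical
  have hp : p.Prime := Fact.out
  have hp1 : (1 : ℝ) < p := by exact_mod_cast hp.one_lt
  have hp0 : (0 : ℝ) < p := by linarith
  -- sizes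
  have hpε : (8 : ℝ) ≤ (p : ℝ) ^ ε :=
    h8.trans (Real.rpow_le_rpow_of_exponent_le hp1.le (by linarith))
  have hN8 : (8 : ℝ) ≤ N := hpε.trans hN
  have hN8' : 8 ≤ N := by exact_mod_cast hN8
  have hN0 : (0 : ℝ) < N := by linarith
  have h3N : 3 * N < p := by nlinarith
  have hNp : N ≤ p := by omega
  have hq : Real.sqrt p = (p : ℝ) ^ (1 / 2 : ℝ) := Real.sqrt_eq_rpow _
  have hNq : (N : ℝ) ≤ (p : ℝ) ^ (1 / 2 : ℝ) := by
    rw [← hq]
    apply Real.le_sqrt_of_sq_le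
    exact_mod_cast hN2
  have hL0 : (0 : ℝ) < L := lt_of_lt_of_le (by positivity) hL1
  have hL : 1 ≤ L := by
    have : 0 < L := by exact_mod_cast hL0
    omega
  have hf : (N : ℝ) ≤ (p : ℝ) ^ (ε / 4) * L := by
    calc (N : ℝ) = (p : ℝ) ^ (ε / 4) * (N * (p : ℝ) ^ (-(ε / 4))) := by
          rw [Real.rpow_neg hp0.le]
          have : (p : ℝ) ^ (ε / 4) ≠ 0 := by positivity
          field_simp
      _ ≤ _ := mul_le_mul_of_nonneg_left hL1 (by positivity)
  -- the constant m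
  obtain ⟨u, hu⟩ : ∃ u : ℝ, u = (p : ℝ) ^ (ε / 16) * (p : ℝ) ^ (ε / 4) := ⟨_, rfl⟩
  have hu1 : 1 ≤ u := by
    rw [hu]
    have h1 : (1 : ℝ) ≤ (p : ℝ) ^ (ε / 16) := Real.one_le_rpow hp1.le (by positivity)
    nlinarith
  have hu0 : 0 < u := by linarith
  -- the size of the pieces
  obtain ⟨Y, hY⟩ : ∃ Y : ℝ, Y = (p : ℝ) ^ (1 / 2 : ℝ) * u / N := ⟨_, rfl⟩
  have hYu : u ≤ Y := by
    rw [hY, le_div_iff₀ hN0]
    calc u * N ≤ u * (p : ℝ) ^ (1 / 2 : ℝ) := mul_le_mul_of_nonneg_left hNq hu0.le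
      _ = _ := mul_comm _ _
  have hY1 : 1 ≤ Y := hu1.trans hYu
  have hYN : Y * N = (p : ℝ) ^ (1 / 2 : ℝ) * u := by
    rw [hY]
    field_simp
  obtain ⟨X, hX⟩ : ∃ X : ℕ, X = ⌈Y⌉₊ := ⟨_, rfl⟩
  have hXY : Y ≤ X := by rw [hX]; exact Nat.le_ceil _
  have hX2 : (X : ℝ) ≤ 2 * Y := by
    have : (X : ℝ) < Y + 1 := by rw [hX]; exact Nat.ceil_lt_add_one (by linarith)
    linarith
  have hX1 : 1 ≤ X := by
    have : (1 : ℝ) ≤ X := hY1.trans hXY
    exact_mod_cast this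
  -- 2 Y ≤ |B|
  have hXB : X ≤ B.card := by
    have h1 : 2 * Y ≤ B.card := by
      rw [hY]
      have h2 : 2 * u ≤ (p : ℝ) ^ ε := by
        have h3 : (p : ℝ) ^ ε = (p : ℝ) ^ (ε / 4) * ((p : ℝ) ^ (ε / 4) * (p : ℝ) ^ (ε / 2)) := by
          rw [← Real.rpow_add hp0, ← Real.rpow_add hp0]
          congr 1
          ring
        have h5 : (p : ℝ) ^ (ε / 16) ≤ (p : ℝ) ^ (ε / 2) :=
          Real.rpow_le_rpow_of_exponent_le hp1.le (by linarith)
        rw [h3, hu]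
        have h6 : 0 < (p : ℝ) ^ (ε / 16) := by positivity
        have h7 : 0 < (p : ℝ) ^ (ε / 2) := by positivity
        have h9 : 2 * (p : ℝ) ^ (ε / 16) ≤ (p : ℝ) ^ (ε / 4) * (p : ℝ) ^ (ε / 2) :=
          mul_le_mul (by linarith) h5 h6.le (by linarith)
        calc 2 * ((p : ℝ) ^ (ε / 16) * (p : ℝ) ^ (ε / 4)) =
            (p : ℝ) ^ (ε / 4) * (2 * (p : ℝ) ^ (ε / 16)) := by ring
          _ ≤ _ := mul_le_mul_of_nonneg_left h9 (by positivity)
      have h10 : 2 * ((p : ℝ) ^ (1 / 2 : ℝ) * u / N) = (p : ℝ) ^ (1 / 2 : ℝ) * (2 * u) / N := by ring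
      rw [h10, div_le_iff₀ hN0]
      calc (p : ℝ) ^ (1 / 2 : ℝ) * (2 * u) ≤ (p : ℝ) ^ (1 / 2 : ℝ) * (p : ℝ) ^ ε :=
            mul_le_mul_of_nonneg_left h2 (by positivity)
        _ = (p : ℝ) ^ (1 / 2 + ε) := (Real.rpow_add hp0 _ _).symm
        _ ≤ N * B.card := hNB
        _ = _ := mul_comm _ _
    have h2 : (X : ℝ) ≤ B.card := hX2.trans h1
    exact_mod_cast h2
  -- splitting
  have key := CASEB_split (p := p) (fun C => ∑ n ∈ range N, ‖∑ b ∈ C, β b * χ ((n : ZMod p) + b)‖)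
    ((p : ℝ) ^ (-δ) * N) X hX1 B ?_ ?_ B.card B subset_rfl rfl hXB
  · exact key
  · intro C D hD
    rw [← sum_add_distrib]
    refine sum_le_sum fun n _ => ?_
    rw [← sum_sdiff hD, add_comm]
    exact norm_add_le _ _
  · intro C hC hXC hC2
    have hcardP := CASEB_card_P p N h3N
    have hcardA := CASEB_card_A p N hNp
    have hcardP' : ((CASEB_P p N).card : ℝ) = 3 * N + 1 := by
      rw [hcardP]
      push_cast
      ring
    have hXC' : (X : ℝ) ≤ C.card := by exact_mod_cast hXC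
    have hC2' : (C.card : ℝ) ≤ 2 * X := by exact_mod_cast hC2
    have hYC : Y ≤ C.card := hXY.trans hXC'
    have h1 := hmain (CASEB_A p N) (CASEB_P p N) C 1 N (24 * u) one_ne_zero
      ((Real.rpow_le_rpow_of_exponent_le hp1.le (by linarith)).trans hN) hN2 (CASEB_sub p N)
      (by
        rw [hcardP', hcardA]
        nlinarith)
      (by
        refine CASEB_mixed p N C (24 * u) fun x => ?_
        rw [hu]
        refine CASEB_near p N L C _ _ hL h3N hf (by linarith) (fun j => ?_) x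
        refine le_trans (Nat.cast_le.2 (card_le_card ?_)) (hcl j)
        intro b hb
        unfold cl at hb ⊢
        rw [mem_filter] at hb ⊢
        exact ⟨hC hb.1, hb.2⟩)
      (by
        rw [hcardP', hq]
        have h2 : (0 : ℝ) < (p : ℝ) ^ (1 / 2 : ℝ) := by positivity
        calc 3 * (N : ℝ) + 1 ≤ 4 * (p : ℝ) ^ (1 / 2 : ℝ) := by linarith
          _ ≤ (p : ℝ) ^ (1 / 2 : ℝ) * (24 * u) := by nlinarith)
      (by
        have h2 : min ((CASEB_P p N).card : ℝ) (C.card : ℝ) ≤ 4 * N := by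
          refine (min_le_left _ _).trans ?_
          rw [hcardP']
          linarith
        have h3 : (C.card : ℝ) ≤ 4 * Y := by linarith
        rw [hq]
        have h4 : (0 : ℝ) ≤ (p : ℝ) ^ (1 / 2 : ℝ) * u := by positivity
        calc (C.card : ℝ) * min ((CASEB_P p N).card : ℝ) (C.card : ℝ) ≤ (4 * Y) * (4 * N) :=
              mul_le_mul h3 h2 (le_min (Nat.cast_nonneg _) (Nat.cast_nonneg _)) (by linarith)
          _ = 16 * ((p : ℝ) ^ (1 / 2 : ℝ) * u) := by rw [← hYN]; ring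
          _ ≤ (p : ℝ) ^ (1 / 2 : ℝ) * (24 * u) := by linarith)
      (by
        rw [hcardP']
        have h2 : (p : ℝ) ^ (1 + ε / 16) = (p : ℝ) ^ (1 / 2 : ℝ) * (p : ℝ) ^ (1 / 2 : ℝ) *
            (p : ℝ) ^ (ε / 16) := by
          rw [← Real.rpow_add hp0, ← Real.rpow_add hp0]
          congr 1
          ring
        rw [h2]
        have h6 : 8 * (p : ℝ) ^ (ε / 16) ≤ u := by
          rw [hu]
          have : 0 < (p : ℝ) ^ (ε / 16) := by positivity
          nlinarith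
        have h7 : (0 : ℝ) ≤ (p : ℝ) ^ (1 / 2 : ℝ) := by positivity
        have h9 : (Y * N) ^ 2 ≤ (N : ℝ) ^ 2 * (C.card : ℝ) ^ 2 := by
          have h10 : Y * N ≤ C.card * N := mul_le_mul_of_nonneg_right hYC hN0.le
          calc (Y * N) ^ 2 ≤ (C.card * N) ^ 2 := by
                refine pow_le_pow_left₀ ?_ h10 2
                nlinarith
            _ = _ := by ring
        calc (p : ℝ) ^ (1 / 2 : ℝ) * (p : ℝ) ^ (1 / 2 : ℝ) * (p : ℝ) ^ (ε / 16) * (24 * u) =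
            3 * ((p : ℝ) ^ (1 / 2 : ℝ) * (p : ℝ) ^ (1 / 2 : ℝ) * u * (8 * (p : ℝ) ^ (ε / 16))) := by
              ring
          _ ≤ 3 * ((p : ℝ) ^ (1 / 2 : ℝ) * (p : ℝ) ^ (1 / 2 : ℝ) * u * u) := by
              have h10 : 0 ≤ (p : ℝ) ^ (1 / 2 : ℝ) * (p : ℝ) ^ (1 / 2 : ℝ) * u := by positivity
              have := mul_le_mul_of_nonneg_left h6 h10
              linarith
          _ = 3 * (Y * N) ^ 2 := by rw [hYN]; ring
          _ ≤ 3 * ((N : ℝ) ^ 2 * (C.card : ℝ) ^ 2) := by linarith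
          _ ≤ N * (3 * N + 1) * (C.card : ℝ) ^ 2 := by
              have h10 : (0 : ℝ) ≤ (N : ℝ) * (C.card : ℝ) ^ 2 := by positivity
              nlinarith)
      χ hχ β hβ
    rw [CASEB_sum_A p N hNp, hcardA] at h1
    exact h1

theorem CASEB : CASEB_stmt := by
  intro ε hε hε1
  obtain ⟨p₁, δ, hδ, hmain⟩ := Pool.Agent.helper46.PY.main3 (ε / 16) (by positivity)
  have e1 : ∀ᶠ p : ℕ in Filter.atTop, (8 : ℝ) ≤ (p : ℝ) ^ (ε / 4) :=
    ((tendsto_rpow_atTop (by positivity : 0 < ε / 4)).comp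
      tendsto_natCast_atTop_atTop).eventually_ge_atTop 8
  have e2 : ∀ᶠ p : ℕ in Filter.atTop, (4 : ℝ) ≤ (p : ℝ) ^ δ :=
    ((tendsto_rpow_atTop hδ).comp tendsto_natCast_atTop_atTop).eventually_ge_atTop 4
  obtain ⟨p₂, hp₂⟩ := Filter.eventually_atTop.1 (e1.and e2)
  refine ⟨δ, hδ, max p₁ p₂, ?_⟩
  intro p _ hp N L B hN hN2 hNB hL1 hL2 hcl χ hχ β hβ
  have hpp : p.Prime := Fact.out
  have h1 : p₁ < p := lt_of_le_of_lt (le_max_left _ _) hp
  have h2 : p₂ ≤ p := (lt_of_le_of_lt (le_max_right _ _) hp).le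
  obtain ⟨h8, h4⟩ := hp₂ p h2
  exact CASEB_core ε δ hε p (hmain p hpp h1) h8 h4 N L B hN hN2 hNB hL1 hcl χ hχ β hβ

end Pool.Agent.PY2
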